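import Pool.Agent.Q185.NP.Stm
import Pool.Agent.Q70.NilStep

/-!
# Project NP: closedness of products and minimality of orbit closures (job DM)
-/

set_option autoImplicit false
set_option linter.unusedSectionVars false

namespace Pool.Agent.Q98.NP

open Pool.Agent.Q185.NP Q70.Nil Topology Filter Set

/-- lifting a convergent ultrafilter from a compact quotient -/
theorem lift_uf {Q : Type} [Group Q] [TopologicalSpace Q] [IsTopologicalGroup Q]
    (D' : Subgroup Q) [CompactSpace (Q ⧸ D')] {X : Type} (Φ : Ultrafilter X) (f : X → Q) :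
    ∃ k₀ : Q, ∀ W ∈ 𝓝 k₀, ∀ᶠ x in (Φ : Filter X), ∃ e ∈ D', f x * e ∈ W := by
  obtain ⟨ξ, -, hξ⟩ := isCompact_univ.ultrafilter_le_nhds
    (Φ.map fun q => (QuotientGroup.mk (f q) : Q ⧸ D')) (by simp)
  obtain ⟨s, rfl⟩ := QuotientGroup.mk_surjective ξ
  refine ⟨s, fun W hW => ?_⟩
  have h1 : (QuotientGroup.mk '' W : Set (Q ⧸ D')) ∈ 𝓝 (QuotientGroup.mk s) :=
    QuotientGroup.isOpenMap_coe.image_mem_nhds hW
  have h2 : ∀ᶠ q in (Φ : Filter X), (QuotientGroup.mk (f q) : Q ⧸ D') ∈ QuotientGroup.mk '' W :=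
    hξ h1
  filter_upwards [h2] with q hq
  obtain ⟨s', hs', hq'⟩ := hq
  refine ⟨(f q)⁻¹ * s', ?_, ?_⟩
  · have h3 := QuotientGroup.eq.1 hq'
    have h4 : (f q)⁻¹ * s' = (s'⁻¹ * f q)⁻¹ := by group
    rw [h4]
    exact inv_mem h3
  · rwa [mul_inv_cancel_left]

theorem clo : S_CLO := by
  intro Q _ _ _ D' D₀ hD₀ hle hnorm hcpt M hM hMr
  rw [isClosed_iff_ultrafilter]
  intro z u hu hS
  classical
  let f : Q → Q := fun w => if h : ∃ x ∈ M, ∃ k ∈ D₀, w = x * k then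
    (Classical.choose (Classical.choose_spec h).2) else 1
  have hf : ∀ w, (∃ x ∈ M, ∃ k ∈ D₀, w = x * k) → f w ∈ D₀ ∧ w * (f w)⁻¹ ∈ M := by
    intro w hw
    have hfw : f w = Classical.choose (Classical.choose_spec hw).2 := dif_pos hw
    have h1 := Classical.choose_spec (Classical.choose_spec hw).2
    rw [← hfw] at h1
    refine ⟨h1.1, ?_⟩
    have h2 : w * (f w)⁻¹ = Classical.choose hw := by
      rw [mul_inv_eq_iff_eq_mul]
      exact h1.2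
    rw [h2]
    exact (Classical.choose_spec hw).1
  obtain ⟨k₀, hk₀⟩ := lift_uf D' u f
  have hSe : ∀ᶠ w in (u : Filter Q), ∃ x ∈ M, ∃ k ∈ D₀, w = x * k := hS
  have hkD : k₀ ∈ D₀ := by
    by_contra hcon
    obtain ⟨w, ⟨e, he, hw⟩, hw2⟩ := ((hk₀ _ (hD₀.isOpen_compl.mem_nhds hcon)).and hSe).exists
    exact hw (mul_mem (hf w hw2).1 (hle he))
  have hzM : z * k₀⁻¹ ∈ M := by
    by_contra hcon
    have hopen : IsOpen {q : Q × Q | q.1 * q.2⁻¹ ∈ Mᶜ} :=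
      hM.isOpen_compl.preimage (by fun_prop)
    have hmem : {q : Q × Q | q.1 * q.2⁻¹ ∈ Mᶜ} ∈ 𝓝 (z, k₀) := hopen.mem_nhds hcon
    rw [nhds_prod_eq] at hmem
    obtain ⟨U, hU, W, hW, hUW⟩ := mem_prod_iff.1 hmem
    obtain ⟨w, ⟨⟨e, he, hw⟩, hw2⟩, hw3⟩ := (((hk₀ W hW).and hSe).and (hu hU)).exists
    have h1 : w * (f w * e)⁻¹ ∈ Mᶜ := hUW (mk_mem_prod hw3 hw)
    apply h1
    obtain ⟨h2, h3⟩ := hf w hw2
    have h4 : w * (f w * e)⁻¹ = (w * (f w)⁻¹) * (f w * e⁻¹ * (f w)⁻¹) := by group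
    rw [h4]
    exact hMr _ h3 _ (hnorm _ h2 _ (inv_mem he))
  exact ⟨z * k₀⁻¹, hzM, k₀, hkD, by group⟩

section oc

variable {Q : Type} [Group Q] [TopologicalSpace Q] [IsTopologicalGroup Q]

theorem OC_closed (S Λ : Subgroup Q) (x : Q) : IsClosed (OC S Λ x) := isClosed_closure

theorem OC_self (S Λ : Subgroup Q) (x : Q) : x ∈ OC S Λ x :=
  subset_closure ⟨1, one_mem _, 1, one_mem _, by simp⟩

theorem OC_left {S Λ : Subgroup Q} {x y s : Q} (hs : s ∈ S) (hy : y ∈ OC S Λ x) :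
    s * y ∈ OC S Λ x := by
  have hcl : IsClosed {y : Q | s * y ∈ OC S Λ x} :=
    (OC_closed S Λ x).preimage (by fun_prop : Continuous fun y : Q => s * y)
  refine closure_minimal ?_ hcl hy
  rintro y ⟨s', hs', l, hl, rfl⟩
  exact subset_closure ⟨s * s', mul_mem hs hs', l, hl, by simp only [mul_assoc]⟩

theorem OC_right {S Λ : Subgroup Q} {x y l : Q} (hl : l ∈ Λ) (hy : y ∈ OC S Λ x) :
    y * l ∈ OC S Λ x := by
  have hcl : IsClosed {y : Q | y * l ∈ OC S Λ x} :=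
    (OC_closed S Λ x).preimage (by fun_prop : Continuous fun y : Q => y * l)
  refine closure_minimal ?_ hcl hy
  rintro y ⟨s', hs', l', hl', rfl⟩
  exact subset_closure ⟨s', hs', l' * l, mul_mem hl' hl, by simp only [mul_assoc]⟩

theorem OC_min {S Λ : Subgroup Q} {x : Q} {M : Set Q} (hM : IsClosed M) (hx : x ∈ M)
    (hl : ∀ s ∈ S, ∀ y ∈ M, s * y ∈ M) (hr : ∀ l ∈ Λ, ∀ y ∈ M, y * l ∈ M) :
    OC S Λ x ⊆ M := by
  refine closure_minimal ?_ hM
  rintro y ⟨s, hs, l, hl', rfl⟩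
  exact hr l hl' _ (hl s hs _ hx)

theorem OC_trans {S Λ : Subgroup Q} {x y : Q} (hy : y ∈ OC S Λ x) : OC S Λ y ⊆ OC S Λ x :=
  OC_min (OC_closed S Λ x) hy (fun _ hs _ h => OC_left hs h) (fun _ hl _ h => OC_right hl h)

theorem OC_mono {S Λ Λ' : Subgroup Q} (h : Λ ≤ Λ') (x : Q) : OC S Λ x ⊆ OC S Λ' x :=
  OC_min (OC_closed S Λ' x) (OC_self S Λ' x) (fun _ hs _ h => OC_left hs h)
    (fun _ hl _ hy => OC_right (h hl) hy)

theorem OC_conj {S Λ : Subgroup Q} {k : Q} (hk : ∀ e ∈ Λ, k⁻¹ * e * k ∈ Λ) {x y : Q}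
    (hy : y ∈ OC S Λ x) : y * k ∈ OC S Λ (x * k) := by
  have hcl : IsClosed {y : Q | y * k ∈ OC S Λ (x * k)} :=
    (OC_closed S Λ (x * k)).preimage (by fun_prop : Continuous fun y : Q => y * k)
  refine closure_minimal ?_ hcl hy
  rintro y ⟨s', hs', l', hl', rfl⟩
  exact subset_closure ⟨s', hs', k⁻¹ * l' * k, hk _ hl', by group⟩

theorem D_norm (Γ : Subgroup Q) (m : ℕ) {k d : Q} (hk : k ∈ D Γ m) (hd : d ∈ D Γ (m + 1)) :
    k⁻¹ * d * k ∈ D Γ (m + 1) := by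
  have h := conj_D Γ m (inv_mem hk) hd
  rwa [inv_inv] at h

theorem cpt_of_le {Λ Λ' : Subgroup Q} (h : Λ ≤ Λ') [CompactSpace (Q ⧸ Λ)] :
    CompactSpace (Q ⧸ Λ') := by
  have hc : Continuous (Subgroup.quotientMapOfLE h) :=
    continuous_quot_lift _ QuotientGroup.continuous_mk
  refine Function.Surjective.compactSpace hc ?_
  intro x
  obtain ⟨x, rfl⟩ := QuotientGroup.mk_surjective x
  exact ⟨QuotientGroup.mk x, rfl⟩

theorem cpt_D (Λ : Subgroup Q) [CompactSpace (Q ⧸ Λ)] (m : ℕ) : CompactSpace (Q ⧸ D Λ m) :=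
  cpt_of_le (Γ_le_D Λ m)

/-- powers return near `1` modulo a normalised cocompact subgroup -/
theorem pow_return (D' : Subgroup Q) [CompactSpace (Q ⧸ D')] {k : Q}
    (hk : ∀ n : ℕ, ∀ e ∈ D', (k ^ n)⁻¹ * e * k ^ n ∈ D') {V : Set Q} (hV : V ∈ 𝓝 (1 : Q)) :
    ∃ n : ℕ, 0 < n ∧ ∃ d ∈ D', k ^ n * d ∈ V := by
  obtain ⟨k₀, hk₀⟩ := lift_uf D' (hyperfilter ℕ) (fun n => k ^ n)
  have hopen : {q : Q × Q | q.1⁻¹ * q.2 ∈ V} ∈ 𝓝 (k₀, k₀) := by
    have hc : Continuous fun q : Q × Q => q.1⁻¹ * q.2 := by fun_prop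
    exact hc.continuousAt.preimage_mem_nhds (by simpa using hV)
  rw [nhds_prod_eq] at hopen
  obtain ⟨U, hU, W, hW, hUW⟩ := mem_prod_iff.1 hopen
  obtain ⟨i, e, he, hi⟩ := (hk₀ U hU).exists
  have hle : ((hyperfilter ℕ : Ultrafilter ℕ) : Filter ℕ) ≤ atTop := by
    rw [← Nat.cofinite_eq_atTop]
    exact hyperfilter_le_cofinite
  obtain ⟨j, ⟨e', he', hj⟩, hij⟩ := ((hk₀ W hW).and (hle (eventually_gt_atTop i))).exists
  have h1 : (k ^ i * e)⁻¹ * (k ^ j * e') ∈ V := hUW (mk_mem_prod hi hj)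
  have hij' : i < j := hij
  have h2 : k ^ j = k ^ i * k ^ (j - i) := by
    rw [← pow_add]
    congr 1
    omega
  refine ⟨j - i, by omega, ((k ^ (j - i))⁻¹ * e⁻¹ * k ^ (j - i)) * e',
    mul_mem (hk _ _ (inv_mem he)) he', ?_⟩
  have h3 : k ^ (j - i) * (((k ^ (j - i))⁻¹ * e⁻¹ * k ^ (j - i)) * e') =
      (k ^ i * e)⁻¹ * (k ^ j * e') := by
    rw [h2]
    group
  rw [h3]
  exact h1

theorem D_top (Λ : Subgroup Q) (x : Q) : x ∈ D Λ 0 := L_le_D Λ 0 (L_zero_mem x)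

theorem OC_sym (hC : S_CLO) (Λ : Subgroup Q) [CompactSpace (Q ⧸ Λ)] (S : Subgroup Q) (m : ℕ) :
    ∀ x y : Q, y ∈ OC S (D Λ m) x → x ∈ OC S (D Λ m) y := by
  induction m with
  | zero =>
    intro x y _
    exact subset_closure ⟨1, one_mem _, y⁻¹ * x, D_top Λ _, by group⟩
  | succ m ih =>
    intro x y hy
    have hcpt : CompactSpace (Q ⧸ D Λ (m + 1)) := cpt_D Λ (m + 1)
    have h1 : x ∈ OC S (D Λ m) y := ih x y (OC_mono (D_antitone Λ m) x hy)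
    have hcl : IsClosed {z | ∃ x ∈ OC S (D Λ (m + 1)) y, ∃ k ∈ D Λ m, z = x * k} :=
      hC Q (D Λ (m + 1)) (D Λ m) (D_closed Λ m) (D_antitone Λ m)
        (fun k hk e he => conj_D Λ m hk he) hcpt _ (OC_closed _ _ _)
        (fun x hx e he => OC_right he hx)
    have h2 : OC S (D Λ m) y ⊆ {z | ∃ x ∈ OC S (D Λ (m + 1)) y, ∃ k ∈ D Λ m, z = x * k} := by
      refine OC_min hcl ⟨y, OC_self _ _ _, 1, one_mem _, by simp⟩ ?_ ?_
      · rintro s hs _ ⟨x, hx, k, hk, rfl⟩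
        exact ⟨s * x, OC_left hs hx, k, hk, by rw [mul_assoc]⟩
      · rintro l hl _ ⟨x, hx, k, hk, rfl⟩
        exact ⟨x, hx, k * l, mul_mem hk hl, by rw [mul_assoc]⟩
    obtain ⟨x', hx', k', hk', hxk⟩ := h2 h1
    -- `k = k'⁻¹`
    set k := k'⁻¹ with hk
    have hkD : k ∈ D Λ m := inv_mem hk'
    have hxk2 : x * k ∈ OC S (D Λ (m + 1)) y := by
      rw [hxk, hk, mul_inv_cancel_right]
      exact hx'
    have hnk : ∀ e ∈ D Λ (m + 1), k⁻¹ * e * k ∈ D Λ (m + 1) := fun e he => D_norm Λ m hkD he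
    have hpow : ∀ n : ℕ, ∀ u ∈ OC S (D Λ (m + 1)) x, u * k ^ (n + 1) ∈ OC S (D Λ (m + 1)) y := by
      intro n
      induction n with
      | zero =>
        intro u hu
        rw [zero_add, pow_one]
        exact OC_trans hxk2 (OC_conj hnk hu)
      | succ n ihn =>
        intro u hu
        have h3 : u * k ∈ OC S (D Λ (m + 1)) y := OC_trans hxk2 (OC_conj hnk hu)
        have h4 := ihn _ (OC_trans hy h3)
        rwa [mul_assoc, ← pow_succ'] at h4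
    have hmem : x ∈ closure (OC S (D Λ (m + 1)) y) := by
      rw [mem_closure_iff_nhds]
      intro V' hV'
      have hV : {v : Q | x * v ∈ V'} ∈ 𝓝 (1 : Q) := by
        have hc : Continuous fun v : Q => x * v := by fun_prop
        exact hc.continuousAt.preimage_mem_nhds (by simpa using hV')
      obtain ⟨n, hn, d, hd, hnd⟩ := pow_return (D Λ (m + 1)) (k := k)
        (fun n e he => D_norm Λ m (pow_mem hkD n) he) hV
      obtain ⟨n, rfl⟩ := Nat.exists_eq_succ_of_ne_zero hn.ne'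
      refine ⟨x * (k ^ (n + 1) * d), hnd, ?_⟩
      rw [← mul_assoc]
      exact OC_right hd (hpow n x (OC_self _ _ _))
    rwa [(OC_closed _ _ _).closure_eq] at hmem

theorem D_eq_of_bot {Λ : Subgroup Q} (hΛ : IsClosed (Λ : Set Q)) {c : ℕ} (hc : L Q c = ⊥) :
    D Λ c = Λ := by
  refine le_antisymm ?_ (Γ_le_D Λ c)
  refine D_le Λ c hΛ ?_ le_rfl
  rw [hc]
  exact bot_le

end oc

theorem dm (hC : S_CLO) : S_DM := by
  intro Q _ _ _ hnil Λ hΛ hcpt S x y hy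
  obtain ⟨c, hc⟩ := Subgroup.nilpotent_iff_lowerCentralSeries.1 hnil
  have h := OC_sym hC Λ S c x y
  rw [D_eq_of_bot hΛ hc] at h
  exact h hy

end Pool.Agent.Q98.NP
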