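import Pool.Agent.Q98.NP.Dm

/-!
# Project NP: a circle valued function separating orbit closures (job PHI)
-/

set_option autoImplicit false
set_option linter.unusedSectionVars false

namespace Pool.Agent.Q98.NP

open Pool.Agent.Q185.NP Q70.Nil Topology Filter Set
open scoped commutatorElement

/-- characters of a closed subgroup modulo a closed subgroup containing its commutators -/
theorem char_exists {Q : Type} [Group Q] [TopologicalSpace Q] [IsTopologicalGroup Q]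
    (D' R K : Subgroup Q) [CompactSpace (Q ⧸ D')] (h1 : D' ≤ R) (h2 : D' ≤ K)
    (hR : IsClosed (R : Set Q)) (hK : IsClosed (K : Set Q))
    (hcomm : ∀ x ∈ K, ∀ y ∈ K, ⁅x, y⁆ ∈ R) {g : Q} (hgK : g ∈ K) (hgR : g ∉ R) :
    ∃ F : Q → Circle, ContinuousOn F K ∧ (∀ x ∈ K, ∀ y ∈ K, F (x * y) = F x * F y) ∧
      (∀ x ∈ K, x ∈ R → F x = 1) ∧ F g ≠ 1 := by
  let S' : Subgroup K := R.subgroupOf K
  have hnormal : S'.Normal := by
    refine ⟨fun k hk g => ?_⟩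
    rw [Subgroup.mem_subgroupOf] at hk ⊢
    have h1 : ((g * k * g⁻¹ : K) : Q) = ⁅(g : Q), (k : Q)⁆ * k := by
      rw [commutatorElement_def]
      push_cast
      group
    rw [h1]
    exact mul_mem (hcomm g g.2 k k.2) hk
  have hclosed : IsClosed (S' : Set K) := hR.preimage continuous_subtype_val
  let instCG : CommGroup (K ⧸ S') :=
    { (inferInstance : Group (K ⧸ S')) with
      mul_comm := by
        intro x y
        obtain ⟨x, rfl⟩ := QuotientGroup.mk_surjective x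
        obtain ⟨y, rfl⟩ := QuotientGroup.mk_surjective y
        refine QuotientGroup.eq.2 ?_
        rw [Subgroup.mem_subgroupOf]
        have h1 : (((x * y)⁻¹ * (y * x) : K) : Q) = ⁅(y : Q)⁻¹, (x : Q)⁻¹⁆ := by
          rw [commutatorElement_def]
          push_cast
          group
        rw [h1]
        exact hcomm _ (inv_mem y.2) _ (inv_mem x.2) }
  have hTG : IsTopologicalGroup (K ⧸ S') := inferInstance
  have hT3 : T3Space (K ⧸ S') := inferInstance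
  have hmk : ∀ (x w : K), (w : Q)⁻¹ * x ∈ D' →
      (QuotientGroup.mk x : K ⧸ S') = QuotientGroup.mk w := by
    intro x w hxw
    refine (QuotientGroup.eq.2 ?_).symm
    rw [Subgroup.mem_subgroupOf]
    push_cast
    exact h1 hxw
  have hcpt : CompactSpace (K ⧸ S') := by
    refine ⟨isCompact_iff_ultrafilter_le_nhds.2 fun 𝒰 _ => ?_⟩
    have hsurj : Function.Surjective (QuotientGroup.mk : K → K ⧸ S') := QuotientGroup.mk_surjective
    have hne : (comap (QuotientGroup.mk : K → K ⧸ S') (𝒰 : Filter (K ⧸ S'))).NeBot :=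
      𝒰.neBot.comap_of_surj hsurj
    let 𝒱 : Ultrafilter K := Ultrafilter.of (comap (QuotientGroup.mk : K → K ⧸ S') 𝒰)
    have h𝒱 : (𝒱 : Filter K) ≤ comap (QuotientGroup.mk : K → K ⧸ S') 𝒰 := Ultrafilter.of_le _
    have h𝒱𝒰 : (𝒱.map (QuotientGroup.mk : K → K ⧸ S')) = 𝒰 :=
      Ultrafilter.coe_le_coe.1 (map_le_iff_le_comap.2 h𝒱)
    obtain ⟨ξ, -, hξ⟩ := isCompact_univ.ultrafilter_le_nhds
      (𝒱.map fun x : K => (QuotientGroup.mk (x : Q) : Q ⧸ D')) (by simp)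
    obtain ⟨y, rfl⟩ := QuotientGroup.mk_surjective ξ
    have hy : ∀ W ∈ 𝓝 y, ∀ᶠ x : K in (𝒱 : Filter K), ∃ w ∈ W, w⁻¹ * (x : Q) ∈ D' := by
      intro W hW
      have h1 : (QuotientGroup.mk '' W : Set (Q ⧸ D')) ∈ 𝓝 (QuotientGroup.mk y) :=
        QuotientGroup.isOpenMap_coe.image_mem_nhds hW
      have h2 : ∀ᶠ x : K in (𝒱 : Filter K),
          (QuotientGroup.mk (x : Q) : Q ⧸ D') ∈ QuotientGroup.mk '' W := hξ h1
      filter_upwards [h2] with q hq
      obtain ⟨w, hw, hq'⟩ := hq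
      exact ⟨w, hw, QuotientGroup.eq.1 hq'⟩
    have hwK : ∀ (x : K) (w : Q), w⁻¹ * (x : Q) ∈ D' → w ∈ K := by
      intro x w hw
      have h1 : w = x * (w⁻¹ * x)⁻¹ := by group
      rw [h1]
      exact mul_mem x.2 (inv_mem (h2 hw))
    have hyK : y ∈ K := by
      by_contra hcon
      obtain ⟨x, w, hw, hwx⟩ := (hy _ (hK.isOpen_compl.mem_nhds hcon)).exists
      exact hw (hwK x w hwx)
    refine ⟨QuotientGroup.mk ⟨y, hyK⟩, mem_univ _, ?_⟩
    intro O hO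
    rw [← h𝒱𝒰]
    have h1 : (QuotientGroup.mk : K → K ⧸ S') ⁻¹' O ∈ 𝓝 (⟨y, hyK⟩ : K) :=
      QuotientGroup.continuous_mk.continuousAt.preimage_mem_nhds hO
    rw [nhds_subtype_eq_comap, mem_comap] at h1
    obtain ⟨W, hW, hWO⟩ := h1
    change ∀ᶠ x : K in (𝒱 : Filter K), (QuotientGroup.mk x : K ⧸ S') ∈ O
    filter_upwards [hy W hW] with x hx
    obtain ⟨w, hw, hwx⟩ := hx
    have h2 : (QuotientGroup.mk (⟨w, hwK x w hwx⟩ : K) : K ⧸ S') ∈ O :=
      hWO (show ((⟨w, hwK x w hwx⟩ : K) : Q) ∈ W from hw)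
    rwa [hmk x ⟨w, hwK x w hwx⟩ hwx]
  obtain ⟨χ, hχ⟩ := Pool.LatH472.chars (QuotientGroup.mk (⟨g, hgK⟩ : K) : K ⧸ S') (by
    intro h
    have h1 : (⟨g, hgK⟩ : K) ∈ S' := (QuotientGroup.eq_one_iff _).1 h
    exact hgR (Subgroup.mem_subgroupOf.1 h1))
  classical
  let F : Q → Circle := fun x => if h : x ∈ K then χ (QuotientGroup.mk ⟨x, h⟩) else 1
  have hFK : ∀ (x : Q) (h : x ∈ K), F x = χ (QuotientGroup.mk ⟨x, h⟩) := fun x h => dif_pos h
  refine ⟨F, ?_, fun x hx y hy => ?_, fun x hx hxR => ?_, ?_⟩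
  · rw [continuousOn_iff_continuous_domRestrict]
    have h1 : (Set.domRestrict (K : Set Q) F) =
        fun x : K => χ (QuotientGroup.mk x) := by
      ext x
      exact congrArg _ (hFK x.1 x.2)
    rw [h1]
    exact χ.continuous.comp QuotientGroup.continuous_mk
  · rw [hFK x hx, hFK y hy, hFK (x * y) (mul_mem hx hy), ← map_mul]
    rfl
  · rw [hFK x hx]
    have h1 : (QuotientGroup.mk (⟨x, hx⟩ : K) : K ⧸ S') = 1 :=
      (QuotientGroup.eq_one_iff _).2 (Subgroup.mem_subgroupOf.2 hxR)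
    rw [h1]
    exact map_one χ
  · rw [hFK g hgK]
    exact hχ

section

variable {Q : Type} [Group Q] [TopologicalSpace Q] [IsTopologicalGroup Q]

/-- the elements of `D₀` whose right translations preserve `M'` -/
def KK (D₀ : Subgroup Q) (M' : Set Q) : Subgroup Q where
  carrier := {k | k ∈ D₀ ∧ (∀ y ∈ M', y * k ∈ M') ∧ ∀ y ∈ M', y * k⁻¹ ∈ M'}
  mul_mem' {k l} hk hl := by
    refine ⟨mul_mem hk.1 hl.1, fun y h => ?_, fun y h => ?_⟩
    · rw [← mul_assoc]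
      exact hl.2.1 _ (hk.2.1 _ h)
    · rw [mul_inv_rev, ← mul_assoc]
      exact hk.2.2 _ (hl.2.2 _ h)
  one_mem' := by
    refine ⟨one_mem _, fun y h => ?_, fun y h => ?_⟩
    · rwa [mul_one]
    · rwa [inv_one, mul_one]
  inv_mem' {k} hk := by
    refine ⟨inv_mem hk.1, hk.2.2, fun y h => ?_⟩
    rw [inv_inv]
    exact hk.2.1 _ h

theorem isClosed_KK {D₀ : Subgroup Q} {M' : Set Q} (hD : IsClosed (D₀ : Set Q))
    (hM : IsClosed M') : IsClosed (KK D₀ M' : Set Q) := by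
  have h : (KK D₀ M' : Set Q) = (D₀ : Set Q) ∩ ((⋂ y, ⋂ (_ : y ∈ M'), {k | y * k ∈ M'}) ∩
      (⋂ y, ⋂ (_ : y ∈ M'), {k | y * k⁻¹ ∈ M'})) := by
    ext k
    simp only [mem_inter_iff, mem_iInter]
    rfl
  rw [h]
  refine hD.inter (IsClosed.inter ?_ ?_)
  · refine isClosed_iInter fun y => isClosed_iInter fun _ => ?_
    exact hM.preimage (by fun_prop : Continuous fun k : Q => y * k)
  · refine isClosed_iInter fun y => isClosed_iInter fun _ => ?_
    exact hM.preimage (by fun_prop : Continuous fun k : Q => y * k⁻¹)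

theorem phi_aux (hC : S_CLO) (Λ : Subgroup Q) [CompactSpace (Q ⧸ Λ)] (S : Subgroup Q) (m : ℕ)
    {z : Q} (hz : z ∈ OC S (D Λ m) 1) (hz' : z ∉ OC S (D Λ (m + 1)) 1) :
    ∃ φ F : Q → Circle, ContinuousOn φ (OC S (D Λ m) 1) ∧
      (∀ s ∈ S, ∀ w ∈ OC S (D Λ m) 1, φ (s * w) = φ w) ∧
      (∀ w ∈ OC S (D Λ m) 1, ∀ k ∈ D Λ m, φ (w * k) = φ w * F k) ∧
      (∀ w ∈ OC S (D Λ (m + 1)) 1, φ w = 1) ∧ φ z ≠ 1 := by
  have hcpt : CompactSpace (Q ⧸ D Λ (m + 1)) := cpt_D Λ (m + 1)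
  set M := OC S (D Λ m) 1 with hM
  set M' := OC S (D Λ (m + 1)) 1 with hM'
  have hMc : IsClosed M := OC_closed _ _ _
  have hMc' : IsClosed M' := OC_closed _ _ _
  have hMM : M' ⊆ M := OC_mono (D_antitone Λ m) 1
  have hO : ∀ y ∈ M', M' ⊆ OC S (D Λ (m + 1)) y := fun y hy =>
    OC_trans (OC_sym hC Λ S (m + 1) _ _ hy)
  set K := KK (D Λ m) M' with hK
  have hKc : IsClosed (K : Set Q) := isClosed_KK (D_closed Λ m) hMc'
  have hDK : D Λ (m + 1) ≤ K := fun k hk =>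
    ⟨D_antitone Λ m hk, fun y hy => OC_right hk hy, fun y hy => OC_right (inv_mem hk) hy⟩
  have hKD : K ≤ D Λ m := fun k hk => hk.1
  have hone : ∀ k ∈ D Λ m, ∀ y ∈ M', y * k ∈ M' → k ∈ K := by
    intro k hk y hy hyk
    refine ⟨hk, fun u hu => ?_, fun u hu => ?_⟩
    · exact OC_trans hyk (OC_conj (fun e he => D_norm Λ m hk he) (hO y hy hu))
    · have h1 := OC_conj (k := k⁻¹) (fun e he => D_norm Λ m (inv_mem hk) he) (hO _ hyk hu)
      rw [mul_inv_cancel_right] at h1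
      exact OC_trans hy h1
  have hdec : ∀ w, w ∈ M → ∃ y ∈ M', ∃ k ∈ D Λ m, w = y * k := by
    have hcl : IsClosed {z | ∃ x ∈ M', ∃ k ∈ D Λ m, z = x * k} :=
      hC Q (D Λ (m + 1)) (D Λ m) (D_closed Λ m) (D_antitone Λ m)
        (fun k hk e he => conj_D Λ m hk he) hcpt _ hMc' (fun x hx e he => OC_right he hx)
    have h2 : M ⊆ {z | ∃ x ∈ M', ∃ k ∈ D Λ m, z = x * k} := by
      refine OC_min hcl ⟨1, OC_self _ _ _, 1, one_mem _, by simp⟩ ?_ ?_
      · rintro s hs _ ⟨x, hx, k, hk, rfl⟩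
        exact ⟨s * x, OC_left hs hx, k, hk, by rw [mul_assoc]⟩
      · rintro l hl _ ⟨x, hx, k, hk, rfl⟩
        exact ⟨x, hx, k * l, mul_mem hk hl, by rw [mul_assoc]⟩
    exact fun w hw => h2 hw
  have hcomb : ∀ y ∈ M', ∀ k ∈ D Λ m, y * k ∈ M := fun y hy k hk => OC_right hk (hMM hy)
  obtain ⟨y₀, hy₀, g, hg, hzg⟩ := hdec z hz
  have hgK : g ∉ K := by
    intro h
    apply hz'
    rw [hzg]
    exact h.2.1 _ hy₀
  obtain ⟨F, hFc, hFm, hF1, hFg⟩ := char_exists (D Λ (m + 1)) K (D Λ m) hDK (D_antitone Λ m) hKc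
    (D_closed Λ m) (fun x hx y hy => hDK (comm_D Λ m hx hy)) hg hgK
  have hFinv : ∀ x ∈ D Λ m, F x⁻¹ = (F x)⁻¹ := by
    intro x hx
    have h := hFm x hx x⁻¹ (inv_mem hx)
    rw [mul_inv_cancel, hF1 1 (one_mem _) (one_mem _)] at h
    exact (inv_eq_of_mul_eq_one_right h.symm).symm
  classical
  let kf : Q → Q := fun w => if h : ∃ y ∈ M', ∃ k ∈ D Λ m, w = y * k then
    (Classical.choose (Classical.choose_spec h).2) else 1
  have hkf : ∀ w ∈ M, kf w ∈ D Λ m ∧ w * (kf w)⁻¹ ∈ M' := by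
    intro w hw'
    have hw := hdec w hw'
    have hfw : kf w = Classical.choose (Classical.choose_spec hw).2 := dif_pos hw
    have h1 := Classical.choose_spec (Classical.choose_spec hw).2
    rw [← hfw] at h1
    refine ⟨h1.1, ?_⟩
    have h2 : w * (kf w)⁻¹ = Classical.choose hw := by
      rw [mul_inv_eq_iff_eq_mul]
      exact h1.2
    rw [h2]
    exact (Classical.choose_spec hw).1
  have hφ : ∀ y ∈ M', ∀ k ∈ D Λ m, F (kf (y * k)) = F k := by
    intro y hy k hk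
    obtain ⟨h1, h2⟩ := hkf _ (hcomb y hy k hk)
    have h3 : k * (kf (y * k))⁻¹ ∈ K := by
      refine hone _ (mul_mem hk (inv_mem h1)) y hy ?_
      rwa [← mul_assoc]
    have h4 := hF1 _ (hKD h3) h3
    rw [hFm _ hk _ (inv_mem h1), hFinv _ h1, mul_inv_eq_one] at h4
    exact h4.symm
  refine ⟨fun w => F (kf w), F, ?_, ?_, ?_, ?_, ?_⟩
  · intro w hw
    rw [ContinuousWithinAt, tendsto_iff_ultrafilter]
    intro 𝒰 h𝒰
    have hMe : ∀ᶠ x in (𝒰 : Filter Q), x ∈ M := h𝒰 self_mem_nhdsWithin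
    have hwe : (𝒰 : Filter Q) ≤ 𝓝 w := h𝒰.trans nhdsWithin_le_nhds
    obtain ⟨k₀, hk₀⟩ := lift_uf (D Λ (m + 1)) 𝒰 kf
    have hkD : k₀ ∈ D Λ m := by
      by_contra hcon
      obtain ⟨x, ⟨e, he, hx⟩, hx2⟩ :=
        ((hk₀ _ ((D_closed Λ m).isOpen_compl.mem_nhds hcon)).and hMe).exists
      exact hx (mul_mem (hkf x hx2).1 (D_antitone Λ m he))
    have hzM : w * k₀⁻¹ ∈ M' := by
      by_contra hcon
      have hopen : IsOpen {q : Q × Q | q.1 * q.2⁻¹ ∈ M'ᶜ} :=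
        hMc'.isOpen_compl.preimage (by fun_prop)
      have hmem : {q : Q × Q | q.1 * q.2⁻¹ ∈ M'ᶜ} ∈ 𝓝 (w, k₀) := hopen.mem_nhds hcon
      rw [nhds_prod_eq] at hmem
      obtain ⟨U, hU, W, hW, hUW⟩ := mem_prod_iff.1 hmem
      obtain ⟨x, ⟨⟨e, he, hx⟩, hx2⟩, hx3⟩ := (((hk₀ W hW).and hMe).and (hwe hU)).exists
      have h1 : x * (kf x * e)⁻¹ ∈ M'ᶜ := hUW (mk_mem_prod hx3 hx)
      apply h1
      obtain ⟨h2, h3⟩ := hkf x hx2
      have h4 : x * (kf x * e)⁻¹ = (x * (kf x)⁻¹) * (kf x * e⁻¹ * (kf x)⁻¹) := by group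
      rw [h4]
      exact OC_right (conj_D Λ m h2 (inv_mem he)) h3
    have hφw : F (kf w) = F k₀ := by
      have h := hφ _ hzM _ hkD
      rwa [inv_mul_cancel_right] at h
    rw [hφw]
    intro O hO
    have h1 : F ⁻¹' O ∈ 𝓝[(D Λ m : Set Q)] k₀ := hFc k₀ hkD hO
    obtain ⟨W, hW, hWF⟩ := mem_nhdsWithin_iff_exists_mem_nhds_inter.1 h1
    change ∀ᶠ x in (𝒰 : Filter Q), F (kf x) ∈ O
    filter_upwards [hk₀ W hW, hMe] with x hx hx2
    obtain ⟨e, he, hxe⟩ := hx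
    obtain ⟨h2, h3⟩ := hkf x hx2
    have h4 : F (kf x * e) ∈ O := hWF ⟨hxe, mul_mem h2 (D_antitone Λ m he)⟩
    rwa [hFm _ h2 _ (D_antitone Λ m he), hF1 e (D_antitone Λ m he) (hDK he), mul_one] at h4
  · intro s hs w hw
    obtain ⟨y, hy, k, hk, rfl⟩ := hdec w hw
    simp only
    rw [hφ y hy k hk, ← mul_assoc, hφ (s * y) (OC_left hs hy) k hk]
  · intro w hw k' hk'
    obtain ⟨y, hy, k, hk, rfl⟩ := hdec w hw
    simp only
    rw [hφ y hy k hk, mul_assoc, hφ y hy (k * k') (mul_mem hk hk'), hFm k hk k' hk']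
  · intro w hw
    have h := hφ w hw 1 (one_mem _)
    rw [mul_one, hF1 1 (one_mem _) (one_mem _)] at h
    exact h
  · simp only
    rw [hzg, hφ y₀ hy₀ g hg]
    exact hFg

end

theorem phi (hC : S_CLO) (_hD : S_DM) : S_PHI := by
  intro Q _ _ _ _ Λ _ hcpt S m z hz hz'
  exact phi_aux hC Λ S m hz hz'

end Pool.Agent.Q98.NP
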